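import Pool.Agent.H16.SC3

/-!
Clarkson-type inequalities for `n`-tuples of Schatten class operators (MP_5deb6a).
-/

namespace Pool.Agent.Results.MP_5deb6a_an.SchattenClarkson

open scoped InnerProductSpace ComplexConjugate BigOperators Topology
open Filter

/-- A singular value decomposition `A x = ∑ s_i ⟪e_i, x⟫ f_i` of a bounded operator: the `s_i` are
nonnegative and nonincreasing, the `e_i` with `s_i ≠ 0` are orthonormal and so are the `f_i` with
`s_i ≠ 0`.  (Mathlib's inner product is linear in the second variable.) -/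
structure IsSVD {H : Type*} [NormedAddCommGroup H] [InnerProductSpace ℂ H]
    (A : H →L[ℂ] H) (s : ℕ → ℝ) (e f : ℕ → H) : Prop where
  nonneg : ∀ i, 0 ≤ s i
  anti : Antitone s
  right : ∀ i i', s i ≠ 0 → s i' ≠ 0 → ⟪e i, e i'⟫_ℂ = if i = i' then 1 else 0
  left : ∀ i i', s i ≠ 0 → s i' ≠ 0 → ⟪f i, f i'⟫_ℂ = if i = i' then 1 else 0
  hasSum : ∀ x, HasSum (fun i => ((s i : ℂ) * ⟪e i, x⟫_ℂ) • f i) (A x)

/-- `r = ‖A‖_p`: the operator `A` is in the Schatten class `S_p` and `r` is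
`(∑ s_i(A)^p)^(1/p)`, the `s_i(A)` being the singular values of `A`. -/
def IsSchattenNorm {H : Type*} [NormedAddCommGroup H] [InnerProductSpace ℂ H]
    (p : ℝ) (A : H →L[ℂ] H) (r : ℝ) : Prop :=
  ∃ (s : ℕ → ℝ) (e f : ℕ → H), IsSVD A s e f ∧ Summable (fun i => s i ^ p) ∧
    r = (∑' i, s i ^ p) ^ (1 / p)

section aux

variable {H : Type*} [NormedAddCommGroup H] [InnerProductSpace ℂ H]

lemma hs_congr {f g : ℕ → ℂ} {a : ℂ} (h : HasSum f a) (hfg : ∀ i, g i = f i) : HasSum g a := by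
  rw [show g = f from funext hfg]; exact h

lemma IsSVD.apply {A : H →L[ℂ] H} {s : ℕ → ℝ} {e f : ℕ → H} (h : IsSVD A s e f) {i : ℕ}
    (hi : s i ≠ 0) : A (e i) = (s i : ℂ) • f i := by
  have h1 := h.hasSum (e i)
  have h2 : HasSum (fun k => ((s k : ℂ) * ⟪e k, e i⟫_ℂ) • f k)
      (((s i : ℂ) * ⟪e i, e i⟫_ℂ) • f i) := by
    apply hasSum_single i
    intro k hk
    by_cases hsk : s k = 0
    · simp [hsk]
    · rw [h.right k i hsk hi, if_neg hk]; simp
  have h3 := h1.unique h2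
  rw [h3, h.right i i hi hi, if_pos rfl, mul_one]

lemma IsSVD.inner_apply {A : H →L[ℂ] H} {s : ℕ → ℝ} {e f : ℕ → H} (h : IsSVD A s e f) {i : ℕ}
    (hi : s i ≠ 0) : ⟪f i, A (e i)⟫_ℂ = (s i : ℂ) := by
  rw [h.apply hi, inner_smul_right, h.left i i hi hi, if_pos rfl, mul_one]

lemma IsSVD.hasSum_inner {A : H →L[ℂ] H} {s : ℕ → ℝ} {e f : ℕ → H} (h : IsSVD A s e f)
    (x y : H) : HasSum (fun i => (s i : ℂ) * (⟪y, f i⟫_ℂ * ⟪e i, x⟫_ℂ)) ⟪y, A x⟫_ℂ := by
  have h1 := (innerSL ℂ y).hasSum (h.hasSum x)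
  simp only [innerSL_apply_apply, inner_smul_right] at h1
  exact hs_congr h1 (fun i => by ring)

lemma IsSVD.hasSum_inner' {A : H →L[ℂ] H} {s : ℕ → ℝ} {e f : ℕ → H} (h : IsSVD A s e f)
    (x y : H) : HasSum (fun i => (s i : ℂ) * (⟪f i, y⟫_ℂ * ⟪x, e i⟫_ℂ)) ⟪A x, y⟫_ℂ := by
  have h1 := Complex.hasSum_conj'.mpr (h.hasSum_inner x y)
  rw [inner_conj_symm] at h1
  exact hs_congr h1 (fun i => by simp only [map_mul, Complex.conj_ofReal, inner_conj_symm])

/-- data extracted from a Schatten norm -/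
lemma norm_rpow {p : ℝ} (hp : 0 < p) {s : ℕ → ℝ} (hs : ∀ i, 0 ≤ s i) {r : ℝ}
    (hr : r = (∑' i, s i ^ p) ^ (1 / p)) : 0 ≤ r ∧ r ^ p = ∑' i, s i ^ p := by
  have h0 : 0 ≤ ∑' i, s i ^ p := tsum_nonneg fun i => Real.rpow_nonneg (hs i) p
  refine ⟨by rw [hr]; exact Real.rpow_nonneg h0 _, ?_⟩
  rw [hr, ← Real.rpow_mul h0, one_div, inv_mul_cancel₀ hp.ne', Real.rpow_one]

lemma conj_facts {p q : ℝ} (hp : 1 < p) (hpq : 1 / p + 1 / q = 1) :
    1 < q ∧ (p - 1) * q = p ∧ q / p = q - 1 := by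
  have hp0 : 0 < p := by linarith
  have h1 : 1 / p < 1 := by rw [div_lt_one hp0]; exact hp
  have h2 : 0 < 1 / p := by positivity
  have hq0 : 0 < q := by
    have : 0 < 1 / q := by linarith
    exact one_div_pos.mp this
  have hq1 : 1 < q := by
    have : 1 / q < 1 := by linarith
    rwa [div_lt_one hq0] at this
  have e1 : q + p = p * q := by
    field_simp at hpq
    linarith
  refine ⟨hq1, by linarith, ?_⟩
  field_simp
  linarith

variable {B J : Type*} [Fintype B] [Fintype J] [DecidableEq B] [DecidableEq J]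

omit [Fintype B] [DecidableEq B] [DecidableEq J] in
lemma comb_inner (T : B → J → ℝ) (A : J → H →L[ℂ] H) (D : B → H →L[ℂ] H)
    (hD : ∀ b x, D b x = ∑ j, (T b j : ℂ) • A j x) (b : B) (x y : H) :
    ⟪D b x, y⟫_ℂ = ∑ j, (T b j : ℂ) * ⟪A j x, y⟫_ℂ := by
  rw [hD, sum_inner]
  refine Finset.sum_congr rfl fun j _ => ?_
  rw [inner_smul_left, Complex.conj_ofReal]

omit [DecidableEq B] in
lemma inv_inner (T : B → J → ℝ) (N : ℝ)
    (hT : ∀ j k, ∑ b, T b j * T b k = if j = k then N else 0)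
    (A : J → H →L[ℂ] H) (D : B → H →L[ℂ] H)
    (hD : ∀ b x, D b x = ∑ j, (T b j : ℂ) • A j x) (j : J) (x y : H) :
    ∑ b, (T b j : ℂ) * ⟪y, D b x⟫_ℂ = (N : ℂ) * ⟪y, A j x⟫_ℂ := by
  have h1 : ∀ b, (T b j : ℂ) * ⟪y, D b x⟫_ℂ
      = ∑ k, ((T b j * T b k : ℝ) : ℂ) * ⟪y, A k x⟫_ℂ := by
    intro b
    rw [hD, inner_sum, Finset.mul_sum]
    refine Finset.sum_congr rfl fun k _ => ?_
    rw [inner_smul_right]
    push_cast
    ring
  rw [Finset.sum_congr rfl fun b _ => h1 b, Finset.sum_comm]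
  have h2 : ∀ k, ∑ b, ((T b j * T b k : ℝ) : ℂ) * ⟪y, A k x⟫_ℂ
      = if j = k then (N : ℂ) * ⟪y, A k x⟫_ℂ else 0 := by
    intro k
    rw [← Finset.sum_mul, ← Complex.ofReal_sum, hT]
    split_ifs <;> simp
  rw [Finset.sum_congr rfl fun k _ => h2 k]
  simp

theorem general_ge_two (T : B → J → ℝ) (N : ℝ) (hN : 0 ≤ N)
    (hT1 : ∀ b j, |T b j| ≤ 1)
    (hT : ∀ j k, ∑ b, T b j * T b k = if j = k then N else 0)
    (p q : ℝ) (hp : 2 ≤ p) (hpq : 1 / p + 1 / q = 1)
    (A : J → H →L[ℂ] H) (D : B → H →L[ℂ] H)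
    (hD : ∀ b x, D b x = ∑ j, (T b j : ℂ) • A j x)
    (a : J → ℝ) (d : B → ℝ) (ha : ∀ j, IsSchattenNorm p (A j) (a j))
    (hd : ∀ b, IsSchattenNorm p (D b) (d b)) :
    N * (∑ j, a j ^ p) ^ (q / p) ≤ ∑ b, d b ^ q := by
  have hp0 : 0 < p := by linarith
  obtain ⟨hq1, hpq', hqp⟩ := conj_facts (by linarith : 1 < p) hpq
  have hq0 : 0 < q := by linarith
  choose s e f hs hsum ha' using ha
  choose σ g h hσ hσsum hd' using hd
  have hap : ∀ j, 0 ≤ a j ∧ a j ^ p = ∑' i, s j i ^ p := fun j =>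
    norm_rpow hp0 (hs j).nonneg (ha' j)
  have hdp : ∀ b, 0 ≤ d b ∧ d b ^ p = ∑' i, σ b i ^ p := fun j =>
    norm_rpow hp0 (hσ j).nonneg (hd' j)
  set K := ∑ b, d b ^ q with hK
  have hK0 : 0 ≤ K := Finset.sum_nonneg fun b _ => Real.rpow_nonneg (hdp b).1 q
  -- finite truncation
  have hfin : ∀ m : ℕ, N * (∑ j, ∑ i ∈ Finset.range m, s j i ^ p) ^ (q / p) ≤ K := by
    intro m
    set F0 := Finset.range m with hF0
    set S := ∑ j, ∑ i ∈ F0, s j i ^ p with hS
    have hS0 : 0 ≤ S := Finset.sum_nonneg fun j _ => Finset.sum_nonneg fun i _ =>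
      Real.rpow_nonneg ((hs j).nonneg i) p
    let C : J → ℕ → ℝ := fun j i => s j i ^ (p - 1)
    have hCne : ∀ j i, C j i ≠ 0 → s j i ≠ 0 := by
      intro j i h1 h2
      apply h1
      show s j i ^ (p - 1) = 0
      rw [h2, Real.zero_rpow (by linarith)]
    have hsumu : HasSum (fun l => ∑ j, ∑ i ∈ F0, ∑ b, (T b j : ℂ) * (C j i : ℂ) * (σ b l : ℂ) *
        (⟪f j i, h b l⟫_ℂ * ⟪g b l, e j i⟫_ℂ)) ((N * S : ℝ) : ℂ) := by
      have h1 : ((N * S : ℝ) : ℂ)
          = ∑ j, ∑ i ∈ F0, ∑ b, (T b j : ℂ) * (C j i : ℂ) * ⟪f j i, D b (e j i)⟫_ℂ := by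
        rw [hS]
        push_cast
        rw [Finset.mul_sum]
        refine Finset.sum_congr rfl fun j _ => ?_
        rw [Finset.mul_sum]
        refine Finset.sum_congr rfl fun i _ => ?_
        have h2 : ∑ b, (T b j : ℂ) * (C j i : ℂ) * ⟪f j i, D b (e j i)⟫_ℂ
            = (C j i : ℂ) * ∑ b, (T b j : ℂ) * ⟪f j i, D b (e j i)⟫_ℂ := by
          rw [Finset.mul_sum]
          exact Finset.sum_congr rfl fun b _ => by ring
        rw [h2, inv_inner T N hT A D hD]
        by_cases h0 : s j i = 0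
        · have : C j i = 0 := by
            show s j i ^ (p - 1) = 0
            rw [h0, Real.zero_rpow (by linarith)]
          rw [this, h0, Real.zero_rpow hp0.ne']
          simp
        · rw [(hs j).inner_apply h0]
          have : C j i * s j i = s j i ^ p := by
            show s j i ^ (p - 1) * s j i = s j i ^ p
            have hpos : 0 < s j i := lt_of_le_of_ne ((hs j).nonneg i) (Ne.symm h0)
            rw [← Real.rpow_add_one hpos.ne']
            congr 1; ring
          rw [← this]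
          push_cast
          ring
      rw [h1]
      refine hasSum_sum fun j _ => hasSum_sum fun i _ => hasSum_sum fun b _ => ?_
      have h2 := ((hσ b).hasSum_inner (e j i) (f j i)).mul_left ((T b j : ℂ) * (C j i : ℂ))
      exact hs_congr h2 (fun l => by ring)
    have hbound : ∀ G0 : Finset ℕ, ‖∑ l ∈ G0, ∑ j, ∑ i ∈ F0, ∑ b, (T b j : ℂ) * (C j i : ℂ) *
        (σ b l : ℂ) * (⟪f j i, h b l⟫_ℂ * ⟪g b l, e j i⟫_ℂ)‖
        ≤ N ^ (1 / p) * S ^ (1 / q) * K ^ (1 / q) := by
      intro G0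
      have hb := H16.SC.bil_prod_bound T N hN hT1 hT p q hp hpq C
        (fun j i => Real.rpow_nonneg ((hs j).nonneg i) _) σ (fun b => (hσ b).nonneg) e f g h
        (fun j i i' h1 h2 => (hs j).right i i' (hCne j i h1) (hCne j i' h2))
        (fun j i i' h1 h2 => (hs j).left i i' (hCne j i h1) (hCne j i' h2))
        (fun b => (hσ b).right) (fun b => (hσ b).left) F0 G0
      have e1 : ∑ l ∈ G0, ∑ j, ∑ i ∈ F0, ∑ b, (T b j : ℂ) * (C j i : ℂ) *
          (σ b l : ℂ) * (⟪f j i, h b l⟫_ℂ * ⟪g b l, e j i⟫_ℂ)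
          = ∑ j, ∑ i ∈ F0, ∑ b, ∑ l ∈ G0, (T b j : ℂ) * (C j i : ℂ) * (σ b l : ℂ) *
          (⟪f j i, h b l⟫_ℂ * ⟪g b l, e j i⟫_ℂ) := by
        rw [Finset.sum_comm]
        refine Finset.sum_congr rfl fun j _ => ?_
        rw [Finset.sum_comm]
        refine Finset.sum_congr rfl fun i _ => ?_
        rw [Finset.sum_comm]
      rw [e1]
      refine hb.trans ?_
      have e2 : ∑ j, ∑ i ∈ F0, C j i ^ q = S := by
        refine Finset.sum_congr rfl fun j _ => Finset.sum_congr rfl fun i _ => ?_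
        show (s j i ^ (p - 1)) ^ q = _
        rw [← Real.rpow_mul ((hs j).nonneg i), hpq']
      rw [e2]
      have e3 : ∑ b, (∑ l ∈ G0, σ b l ^ p) ^ (q / p) ≤ K := by
        refine Finset.sum_le_sum fun b _ => ?_
        have h3 : ∑ l ∈ G0, σ b l ^ p ≤ d b ^ p := by
          rw [(hdp b).2]
          exact (hσsum b).sum_le_tsum G0 fun l _ => Real.rpow_nonneg ((hσ b).nonneg l) p
        calc (∑ l ∈ G0, σ b l ^ p) ^ (q / p) ≤ (d b ^ p) ^ (q / p) :=
              Real.rpow_le_rpow (Finset.sum_nonneg fun l _ =>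
                Real.rpow_nonneg ((hσ b).nonneg l) p) h3 (by positivity)
          _ = d b ^ q := by
              rw [← Real.rpow_mul (hdp b).1]
              congr 1; field_simp
      have e4 : (∑ b, (∑ l ∈ G0, σ b l ^ p) ^ (q / p)) ^ (1 / q) ≤ K ^ (1 / q) :=
        Real.rpow_le_rpow (Finset.sum_nonneg fun b _ => Real.rpow_nonneg
          (Finset.sum_nonneg fun l _ => Real.rpow_nonneg ((hσ b).nonneg l) p) _) e3
          (by positivity)
      exact mul_le_mul_of_nonneg_left e4 (by positivity)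
    have hlim : N * S ≤ N ^ (1 / p) * S ^ (1 / q) * K ^ (1 / q) := by
      have h1 := le_of_tendsto (hsumu.norm) (Eventually.of_forall hbound)
      rw [Complex.norm_real, Real.norm_of_nonneg (by positivity)] at h1
      exact h1
    rcases hN.eq_or_lt with hN' | hN'
    · rw [← hN', zero_mul]; exact hK0
    rcases hS0.eq_or_lt with hS' | hS'
    · rw [← hS', Real.zero_rpow (by positivity), mul_zero]; exact hK0
    have h1 : N ^ (1 / q) * S ^ (1 / p) ≤ K ^ (1 / q) := by
      have hpos : 0 < N ^ (1 / p) * S ^ (1 / q) := by positivity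
      have h2 : N * S = N ^ (1 / p) * S ^ (1 / q) * (N ^ (1 / q) * S ^ (1 / p)) := by
        have e1 : N = N ^ (1 / p) * N ^ (1 / q) := by
          rw [← Real.rpow_add hN', hpq, Real.rpow_one]
        have e2 : S = S ^ (1 / p) * S ^ (1 / q) := by
          rw [← Real.rpow_add hS', hpq, Real.rpow_one]
        calc N * S = (N ^ (1 / p) * N ^ (1 / q)) * (S ^ (1 / p) * S ^ (1 / q)) := by
              rw [← e1, ← e2]
          _ = _ := by ring
      rw [h2] at hlim
      exact le_of_mul_le_mul_left hlim hpos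
    calc N * S ^ (q / p) = (N ^ (1 / q) * S ^ (1 / p)) ^ q := by
          rw [Real.mul_rpow (by positivity) (by positivity), ← Real.rpow_mul hN,
            ← Real.rpow_mul hS0, one_div, inv_mul_cancel₀ hq0.ne', Real.rpow_one]
          congr 2
          ring
      _ ≤ (K ^ (1 / q)) ^ q := Real.rpow_le_rpow (by positivity) h1 hq0.le
      _ = K := by
          rw [← Real.rpow_mul hK0, one_div, inv_mul_cancel₀ hq0.ne', Real.rpow_one]
  have hlimit : Tendsto (fun m : ℕ => N * (∑ j, ∑ i ∈ Finset.range m, s j i ^ p) ^ (q / p)) atTop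
      (𝓝 (N * (∑ j, a j ^ p) ^ (q / p))) := by
    apply Tendsto.const_mul
    apply Tendsto.rpow_const _ (Or.inr (by positivity))
    apply tendsto_finsetSum
    intro j _
    rw [(hap j).2]
    exact (hsum j).hasSum.tendsto_sum_nat
  exact le_of_tendsto' hlimit hfin

theorem general_le_two (T : B → J → ℝ) (N : ℝ) (hN : 0 ≤ N)
    (hT1 : ∀ b j, |T b j| ≤ 1)
    (hT : ∀ j k, ∑ b, T b j * T b k = if j = k then N else 0)
    (p q : ℝ) (hp1 : 1 < p) (hp2 : p ≤ 2) (hpq : 1 / p + 1 / q = 1)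
    (A : J → H →L[ℂ] H) (D : B → H →L[ℂ] H)
    (hD : ∀ b x, D b x = ∑ j, (T b j : ℂ) • A j x)
    (a : J → ℝ) (d : B → ℝ) (ha : ∀ j, IsSchattenNorm p (A j) (a j))
    (hd : ∀ b, IsSchattenNorm p (D b) (d b)) :
    ∑ b, d b ^ q ≤ N * (∑ j, a j ^ p) ^ (q / p) := by
  have hp0 : 0 < p := by linarith
  obtain ⟨hq1, hpq', hqp⟩ := conj_facts hp1 hpq
  have hq0 : 0 < q := by linarith
  have hq2 : 2 ≤ q := by
    have h1 : 1 / 2 ≤ 1 / p := one_div_le_one_div_of_le hp0 hp2
    have h2 : 1 / q ≤ 1 / 2 := by linarith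
    exact (one_div_le_one_div hq0 (by norm_num)).mp h2
  have hpq2 : 1 / q + 1 / p = 1 := by linarith
  obtain ⟨_, _, hpq3⟩ := conj_facts hq1 hpq2
  choose s e f hs hsum ha' using ha
  choose σ g h hσ hσsum hd' using hd
  have hap : ∀ j, 0 ≤ a j ∧ a j ^ p = ∑' i, s j i ^ p := fun j =>
    norm_rpow hp0 (hs j).nonneg (ha' j)
  have hdp : ∀ b, 0 ≤ d b ∧ d b ^ p = ∑' i, σ b i ^ p := fun j =>
    norm_rpow hp0 (hσ j).nonneg (hd' j)
  set P := ∑ j, a j ^ p with hP
  have hP0 : 0 ≤ P := Finset.sum_nonneg fun b _ => Real.rpow_nonneg (hap b).1 p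
  have hfin : ∀ m : ℕ, ∑ b, (∑ l ∈ Finset.range m, σ b l ^ p) ^ (q / p)
      ≤ N * P ^ (q / p) := by
    intro m
    set G0 := Finset.range m with hG0
    let S : B → ℝ := fun b => ∑ l ∈ G0, σ b l ^ p
    have hS0 : ∀ b, 0 ≤ S b := fun b => Finset.sum_nonneg fun i _ =>
      Real.rpow_nonneg ((hσ b).nonneg i) p
    set Q := ∑ b, S b ^ (q / p) with hQ
    have hQ0 : 0 ≤ Q := Finset.sum_nonneg fun b _ => Real.rpow_nonneg (hS0 b) _
    let X : B → ℕ → ℝ := fun b l => S b ^ ((q - p) / p) * σ b l ^ (p - 1)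
    have hX0 : ∀ b l, 0 ≤ X b l := fun b l =>
      mul_nonneg (Real.rpow_nonneg (hS0 b) _) (Real.rpow_nonneg ((hσ b).nonneg l) _)
    have hXne : ∀ b l, X b l ≠ 0 → σ b l ≠ 0 := by
      intro b l h1 h2
      apply h1
      show S b ^ ((q - p) / p) * σ b l ^ (p - 1) = 0
      rw [h2, Real.zero_rpow (by linarith), mul_zero]
    -- duality identities
    have hX1 : ∀ b, ∑ l ∈ G0, X b l * σ b l = S b ^ (q / p) := by
      intro b
      have h1 : ∀ l, X b l * σ b l = S b ^ ((q - p) / p) * σ b l ^ p := by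
        intro l
        show S b ^ ((q - p) / p) * σ b l ^ (p - 1) * σ b l = _
        by_cases h0 : σ b l = 0
        · rw [h0, Real.zero_rpow hp0.ne']; ring
        · rw [mul_assoc, ← Real.rpow_add_one h0]
          congr 2; ring
      rw [Finset.sum_congr rfl fun l _ => h1 l, ← Finset.mul_sum]
      show S b ^ ((q - p) / p) * S b = _
      rcases (hS0 b).eq_or_lt with h0 | h0
      · rw [← h0, Real.zero_rpow (by positivity : q / p ≠ 0), mul_zero]
      · rw [← Real.rpow_add_one h0.ne']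
        congr 1
        field_simp
        ring
    have hX2 : ∀ b, (∑ l ∈ G0, X b l ^ q) ^ (p / q) = S b ^ (q / p) := by
      intro b
      have h1 : ∀ l, X b l ^ q = S b ^ ((q - p) / p * q) * σ b l ^ p := by
        intro l
        show (S b ^ ((q - p) / p) * σ b l ^ (p - 1)) ^ q = _
        rw [Real.mul_rpow (Real.rpow_nonneg (hS0 b) _) (Real.rpow_nonneg ((hσ b).nonneg l) _),
          ← Real.rpow_mul (hS0 b), ← Real.rpow_mul ((hσ b).nonneg l), hpq']
      rw [Finset.sum_congr rfl fun l _ => h1 l, ← Finset.mul_sum]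
      show (S b ^ ((q - p) / p * q) * S b) ^ (p / q) = _
      rcases (hS0 b).eq_or_lt with h0 | h0
      · rw [← h0, mul_zero, Real.zero_rpow (by positivity : q / p ≠ 0),
          Real.zero_rpow (by positivity : p / q ≠ 0)]
      · rw [← Real.rpow_add_one h0.ne', ← Real.rpow_mul (hS0 b)]
        congr 1
        have e1 : ((q - p) / p * q + 1) * (p / q) = (q - p) + p / q := by
          field_simp
        rw [e1, hpq3, hqp]
        ring
    have hsumv : HasSum (fun i => ∑ j, ∑ b, ∑ l ∈ G0, (T b j : ℂ) * (s j i : ℂ) * (X b l : ℂ) *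
        (⟪f j i, h b l⟫_ℂ * ⟪g b l, e j i⟫_ℂ)) ((Q : ℝ) : ℂ) := by
      have h1 : ((Q : ℝ) : ℂ)
          = ∑ j, ∑ b, ∑ l ∈ G0, (T b j : ℂ) * (X b l : ℂ) * ⟪A j (g b l), h b l⟫_ℂ := by
        rw [Finset.sum_comm]
        rw [hQ]
        push_cast
        refine Finset.sum_congr rfl fun b _ => ?_
        rw [Finset.sum_comm, ← hX1]
        push_cast
        refine Finset.sum_congr rfl fun l _ => ?_
        have h2 : ∑ j, (T b j : ℂ) * (X b l : ℂ) * ⟪A j (g b l), h b l⟫_ℂ
            = (X b l : ℂ) * ⟪D b (g b l), h b l⟫_ℂ := by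
          rw [comb_inner T A D hD, Finset.mul_sum]
          exact Finset.sum_congr rfl fun b _ => by ring
        rw [h2]
        by_cases h0 : σ b l = 0
        · have : X b l = 0 := by
            by_contra hne
            exact hXne b l hne h0
          rw [this]; simp
        · have h3 := (hσ b).inner_apply h0
          rw [← inner_conj_symm, h3, Complex.conj_ofReal]
      rw [h1]
      refine hasSum_sum fun j _ => hasSum_sum fun b _ => hasSum_sum fun l _ => ?_
      have h2 := ((hs j).hasSum_inner' (g b l) (h b l)).mul_left ((T b j : ℂ) * (X b l : ℂ))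
      exact hs_congr h2 (fun l => by ring)
    have hbound : ∀ F0 : Finset ℕ, ‖∑ i ∈ F0, ∑ j, ∑ b, ∑ l ∈ G0, (T b j : ℂ) * (s j i : ℂ) *
        (X b l : ℂ) * (⟪f j i, h b l⟫_ℂ * ⟪g b l, e j i⟫_ℂ)‖
        ≤ N ^ (1 / q) * P ^ (1 / p) * Q ^ (1 / p) := by
      intro F0
      have hb := H16.SC.bil_prod_bound T N hN hT1 hT q p hq2 hpq2 s
        (fun j i => (hs j).nonneg i) X hX0 e f g h
        (fun j => (hs j).right) (fun j => (hs j).left)
        (fun b l l' h1 h2 => (hσ b).right l l' (hXne b l h1) (hXne b l' h2))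
        (fun b l l' h1 h2 => (hσ b).left l l' (hXne b l h1) (hXne b l' h2)) F0 G0
      rw [Finset.sum_comm]
      refine hb.trans ?_
      have e2 : ∑ j, ∑ i ∈ F0, s j i ^ p ≤ P := by
        refine Finset.sum_le_sum fun j _ => ?_
        rw [(hap j).2]
        exact (hsum j).sum_le_tsum F0 fun l _ => Real.rpow_nonneg ((hs j).nonneg l) p
      have e3 : ∑ b, (∑ l ∈ G0, X b l ^ q) ^ (p / q) = Q :=
        Finset.sum_congr rfl fun b _ => hX2 b
      rw [e3]
      have e4 : (∑ j, ∑ i ∈ F0, s j i ^ p) ^ (1 / p) ≤ P ^ (1 / p) :=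
        Real.rpow_le_rpow (Finset.sum_nonneg fun b _ => 
          (Finset.sum_nonneg fun l _ => Real.rpow_nonneg ((hs b).nonneg l) p)) e2
          (by positivity)
      gcongr
    have hlim : Q ≤ N ^ (1 / q) * P ^ (1 / p) * Q ^ (1 / p) := by
      have h1 := le_of_tendsto (hsumv.norm) (Eventually.of_forall hbound)
      rw [Complex.norm_real, Real.norm_of_nonneg hQ0] at h1
      exact h1
    show Q ≤ N * P ^ (q / p)
    rcases hQ0.eq_or_lt with hQ' | hQ'
    · rw [← hQ']; positivity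
    have h1 : Q ^ (1 / q) ≤ N ^ (1 / q) * P ^ (1 / p) := by
      have hpos : 0 < Q ^ (1 / p) := by positivity
      have e2 : Q = Q ^ (1 / q) * Q ^ (1 / p) := by
        rw [← Real.rpow_add hQ', hpq2, Real.rpow_one]
      have h3 : Q ^ (1 / q) * Q ^ (1 / p) ≤ N ^ (1 / q) * P ^ (1 / p) * Q ^ (1 / p) := by
        rw [← e2]; exact hlim
      exact le_of_mul_le_mul_right h3 hpos
    calc Q = (Q ^ (1 / q)) ^ q := by
          rw [← Real.rpow_mul hQ0, one_div, inv_mul_cancel₀ hq0.ne', Real.rpow_one]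
      _ ≤ (N ^ (1 / q) * P ^ (1 / p)) ^ q := Real.rpow_le_rpow (by positivity) h1 hq0.le
      _ = N * P ^ (q / p) := by
          rw [Real.mul_rpow (by positivity) (by positivity), ← Real.rpow_mul hN,
            ← Real.rpow_mul hP0, one_div, inv_mul_cancel₀ hq0.ne', Real.rpow_one]
          congr 2
          ring
  have hlimit : Tendsto (fun m : ℕ => ∑ b, (∑ l ∈ Finset.range m, σ b l ^ p) ^ (q / p)) atTop
      (𝓝 (∑ b, d b ^ q)) := by
    apply tendsto_finsetSum
    intro b _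
    have h1 : d b ^ q = (∑' l, σ b l ^ p) ^ (q / p) := by
      rw [← (hdp b).2, ← Real.rpow_mul (hdp b).1]
      congr 1; field_simp
    rw [h1]
    apply Tendsto.rpow_const _ (Or.inr (by positivity))
    exact (hσsum b).hasSum.tendsto_sum_nat
  exact le_of_tendsto' hlimit hfin

lemma isSchattenNorm_zero {p : ℝ} (hp : 0 < p) : IsSchattenNorm p (0 : H →L[ℂ] H) 0 := by
  refine ⟨fun _ => 0, fun _ => 0, fun _ => 0, ⟨fun _ => le_rfl, fun _ _ _ => le_rfl,
    fun i i' h => absurd rfl h, fun i i' h => absurd rfl h, fun x => ?_⟩, ?_, ?_⟩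
  · simp
  · simp only [Real.zero_rpow hp.ne']
    exact summable_zero
  · simp only [Real.zero_rpow hp.ne', tsum_zero]
    rw [Real.zero_rpow (by positivity)]

lemma IsSchattenNorm.neg {p r : ℝ} {A : H →L[ℂ] H} (h : IsSchattenNorm p A r) :
    IsSchattenNorm p (-A) r := by
  obtain ⟨s, e, f, hs, hsum, hr⟩ := h
  refine ⟨s, e, fun i => -f i, ⟨hs.nonneg, hs.anti, hs.right, ?_, ?_⟩, hsum, hr⟩
  · intro i i' h1 h2
    rw [inner_neg_neg]
    exact hs.left i i' h1 h2
  · intro x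
    have := (hs.hasSum x).neg
    simpa [smul_neg] using this

lemma IsSchattenNorm.sub_comm {p r : ℝ} {A A' : H →L[ℂ] H} (h : IsSchattenNorm p (A - A') r) :
    IsSchattenNorm p (A' - A) r := by
  have := h.neg
  rwa [neg_sub] at this

/-- the matrix of coefficients: two copies of the sum and all ordered differences -/
def TT (n : ℕ) : (Fin 2 ⊕ (Fin n × Fin n)) → Fin n → ℝ
  | Sum.inl _, _ => 1
  | Sum.inr x, i => (if i = x.1 then 1 else 0) - (if i = x.2 then 1 else 0)

lemma TT_le (n : ℕ) (b : Fin 2 ⊕ (Fin n × Fin n)) (j : Fin n) : |TT n b j| ≤ 1 := by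
  rcases b with b | ⟨u, v⟩
  · simp [TT]
  · simp only [TT]
    split_ifs <;> norm_num

lemma TT_orth (n : ℕ) (j k : Fin n) :
    ∑ b, TT n b j * TT n b k = if j = k then 2 * (n : ℝ) else 0 := by
  rw [Fintype.sum_sum_type, Fintype.sum_prod_type]
  simp only [TT, Fin.sum_univ_two]
  have h1 : ∀ u v : Fin n, ((if j = u then (1:ℝ) else 0) - (if j = v then 1 else 0)) *
      ((if k = u then (1:ℝ) else 0) - (if k = v then 1 else 0))
      = (if j = u then (if k = u then (1:ℝ) else 0) else 0)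
        - (if j = u then (1:ℝ) else 0) * (if k = v then 1 else 0)
        - (if k = u then (1:ℝ) else 0) * (if j = v then 1 else 0)
        + (if j = v then (if k = v then (1:ℝ) else 0) else 0) := by
    intro u v
    split_ifs <;> ring
  simp only [h1, Finset.sum_add_distrib, Finset.sum_sub_distrib,
    Finset.sum_ite_eq, Finset.mem_univ, if_true, Finset.sum_const, Finset.card_univ,
    Fintype.card_fin, nsmul_eq_mul, mul_one, mul_ite, mul_zero]
  by_cases hjk : j = k
  · subst hjk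
    simp
    ring
  · have : ¬ k = j := fun h => hjk h.symm
    simp [hjk, this]

/-- the operators attached to the rows of `TT` -/
def DD (n : ℕ) (A : Fin n → H →L[ℂ] H) : (Fin 2 ⊕ (Fin n × Fin n)) → (H →L[ℂ] H)
  | Sum.inl _ => ∑ j, A j
  | Sum.inr x => A x.1 - A x.2

lemma DD_eq (n : ℕ) (A : Fin n → H →L[ℂ] H) (b : Fin 2 ⊕ (Fin n × Fin n)) (x : H) :
    DD n A b x = ∑ j, (TT n b j : ℂ) • A j x := by
  rcases b with b | ⟨u, v⟩
  · simp [DD, TT]
  · simp only [DD, TT, Complex.ofReal_sub, sub_smul, Finset.sum_sub_distrib]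
    have h1 : ∀ w : Fin n, ∑ j, (((if j = w then 1 else 0 : ℝ)) : ℂ) • A j x = A w x := by
      intro w
      rw [Finset.sum_eq_single w]
      · simp
      · intro j _ hj; simp [hj]
      · intro h; exact absurd (Finset.mem_univ _) h
    rw [h1, h1]
    rfl

/-- the norms of the rows -/
noncomputable def dd (n : ℕ) (S : ℝ) (D : Fin n → Fin n → ℝ) : (Fin 2 ⊕ (Fin n × Fin n)) → ℝ
  | Sum.inl _ => S
  | Sum.inr x => if x.1 < x.2 then D x.1 x.2 else if x.2 < x.1 then D x.2 x.1 else 0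

lemma dd_norm (n : ℕ) {p : ℝ} (hp : 0 < p) (A : Fin n → H →L[ℂ] H) (S : ℝ)
    (D : Fin n → Fin n → ℝ) (hS : IsSchattenNorm p (∑ j, A j) S)
    (hD : ∀ j k, j < k → IsSchattenNorm p (A j - A k) (D j k)) (b : Fin 2 ⊕ (Fin n × Fin n)) :
    IsSchattenNorm p (DD n A b) (dd n S D b) := by
  rcases b with b | ⟨u, v⟩
  · exact hS
  · simp only [DD, dd]
    split_ifs with h1 h2
    · exact hD u v h1
    · exact (hD v u h2).sub_comm
    · have : u = v := le_antisymm (not_lt.mp h2) (not_lt.mp h1)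
      rw [this, sub_self]
      exact isSchattenNorm_zero hp

lemma dd_sum (n : ℕ) (S q : ℝ) (hq : q ≠ 0) (D : Fin n → Fin n → ℝ) :
    ∑ b, dd n S D b ^ q = 2 * (S ^ q + ∑ j, ∑ k ∈ Finset.Ioi j, D j k ^ q) := by
  rw [Fintype.sum_sum_type, Fintype.sum_prod_type]
  simp only [dd, Fin.sum_univ_two]
  have h1 : ∀ u v : Fin n, (if u < v then D u v else if v < u then D v u else 0) ^ q
      = (if u < v then D u v ^ q else 0) + (if v < u then D v u ^ q else 0) := by
    intro u v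
    rcases lt_trichotomy u v with h | h | h
    · rw [if_pos h, if_pos h, if_neg (not_lt.mpr h.le), add_zero]
    · subst h
      simp [Real.zero_rpow hq]
    · rw [if_neg (not_lt.mpr h.le), if_pos h, if_neg (not_lt.mpr h.le), if_pos h, zero_add]
  have h2 : ∀ j : Fin n, ∑ k ∈ Finset.Ioi j, D j k ^ q = ∑ k, if j < k then D j k ^ q else 0 := by
    intro j
    rw [← Finset.sum_filter]
    congr 1
    ext k
    simp
  simp only [h1, h2, Finset.sum_add_distrib]
  rw [Finset.sum_comm (f := fun u v : Fin n => if v < u then D v u ^ q else 0)]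
  ring

end aux

lemma isSchattenNorm_smul_id {p : ℝ} (hp : 0 < p) {c : ℝ} (hc : 0 ≤ c) :
    IsSchattenNorm p ((c : ℂ) • ContinuousLinearMap.id ℂ ℂ) c := by
  refine ⟨fun i => if i = 0 then c else 0, fun _ => 1, fun _ => 1, ⟨?_, ?_, ?_, ?_, ?_⟩, ?_, ?_⟩
  · intro i; split_ifs <;> simp [hc]
  · intro i j hij
    show (if j = 0 then c else 0) ≤ (if i = 0 then c else 0)
    split_ifs with h1 h2
    · exact le_rfl
    · exact absurd (Nat.le_zero.mp (h1 ▸ hij)) h2
    · exact hc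
    · exact le_rfl
  · intro i i' h1 h2
    have e1 : i = 0 := by by_contra h; simp [h] at h1
    have e2 : i' = 0 := by by_contra h; simp [h] at h2
    simp [e1, e2]
  · intro i i' h1 h2
    have e1 : i = 0 := by by_contra h; simp [h] at h1
    have e2 : i' = 0 := by by_contra h; simp [h] at h2
    simp [e1, e2]
  · intro x
    have h := hasSum_single (f := fun i : ℕ =>
      ((((if i = 0 then c else 0 : ℝ) : ℂ)) * ⟪(1 : ℂ), x⟫_ℂ) • (1 : ℂ)) 0 (by
        intro i hi
        simp [hi])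
    simpa using h
  · apply summable_of_ne_finset_zero (s := {0})
    intro i hi
    simp only [Finset.mem_singleton] at hi
    simp [hi, Real.zero_rpow hp.ne']
  · have h1 : ∑' i : ℕ, (if i = 0 then c else 0 : ℝ) ^ p = c ^ p := by
      rw [tsum_eq_single 0 (by
        intro i hi
        simp [hi, Real.zero_rpow hp.ne'])]
      simp
    rw [h1, ← Real.rpow_mul hc, mul_one_div_cancel hp.ne', Real.rpow_one]

/-- The three parts: (1) Q1 is true; (2) Q2 is true for `1 < p ≤ 2`; (3) for every `0 < p < 1` the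
inequality of Q2 fails, already for `n = 2` and scalars. -/
theorem result :
    (∀ (H : Type*) [NormedAddCommGroup H] [InnerProductSpace ℂ H]
      (n : ℕ) (p q : ℝ) (A : Fin n → H →L[ℂ] H) (a : Fin n → ℝ) (S : ℝ)
      (D : Fin n → Fin n → ℝ),
      2 ≤ n → 2 ≤ p → 1 / p + 1 / q = 1 →
      (∀ j, IsSchattenNorm p (A j) (a j)) →
      IsSchattenNorm p (∑ j, A j) S →
      (∀ j k, j < k → IsSchattenNorm p (A j - A k) (D j k)) →
      (n : ℝ) * (∑ j, a j ^ p) ^ (q / p) ≤ S ^ q + ∑ j, ∑ k ∈ Finset.Ioi j, D j k ^ q) ∧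
    (∀ (H : Type*) [NormedAddCommGroup H] [InnerProductSpace ℂ H]
      (n : ℕ) (p q : ℝ) (A : Fin n → H →L[ℂ] H) (a : Fin n → ℝ) (S : ℝ)
      (D : Fin n → Fin n → ℝ),
      2 ≤ n → 1 < p → p ≤ 2 → 1 / p + 1 / q = 1 →
      (∀ j, IsSchattenNorm p (A j) (a j)) →
      IsSchattenNorm p (∑ j, A j) S →
      (∀ j k, j < k → IsSchattenNorm p (A j - A k) (D j k)) →
      S ^ q + ∑ j, ∑ k ∈ Finset.Ioi j, D j k ^ q ≤ (n : ℝ) * (∑ j, a j ^ p) ^ (q / p)) ∧
    (∀ p q : ℝ, 0 < p → p < 1 → 1 / p + 1 / q = 1 →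
      ∃ (A : Fin 2 → ℂ →L[ℂ] ℂ) (a : Fin 2 → ℝ) (S : ℝ) (D : Fin 2 → Fin 2 → ℝ),
      (∀ j, IsSchattenNorm p (A j) (a j)) ∧
      IsSchattenNorm p (∑ j, A j) S ∧
      (∀ j k, j < k → IsSchattenNorm p (A j - A k) (D j k)) ∧
      ((2 : ℕ) : ℝ) * (∑ j, a j ^ p) ^ (q / p)
        < S ^ q + ∑ j, ∑ k ∈ Finset.Ioi j, D j k ^ q) := by
  refine ⟨?_, ?_, ?_⟩
  · intro H _ _ n p q A a S D hn hp hpq ha hS hD
    have hp0 : 0 < p := by linarith
    obtain ⟨hq1, -, -⟩ := conj_facts (by linarith : 1 < p) hpq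
    have h := general_ge_two (TT n) (2 * n) (by positivity) (TT_le n) (TT_orth n) p q hp hpq A
      (DD n A) (DD_eq n A) a (dd n S D) ha (dd_norm n hp0 A S D hS hD)
    rw [dd_sum n S q (by linarith) D] at h
    nlinarith [h]
  · intro H _ _ n p q A a S D hn hp hp2 hpq ha hS hD
    have hp0 : 0 < p := by linarith
    obtain ⟨hq1, -, -⟩ := conj_facts hp hpq
    have h := general_le_two (TT n) (2 * n) (by positivity) (TT_le n) (TT_orth n) p q hp hp2 hpq A
      (DD n A) (DD_eq n A) a (dd n S D) ha (dd_norm n hp0 A S D hS hD)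
    rw [dd_sum n S q (by linarith) D] at h
    nlinarith [h]
  · intro p q hp0 hp1 hpq
    have hq : q < 0 := by
      have h1 : 1 < 1 / p := by rw [lt_div_iff₀ hp0]; linarith
      have h2 : 1 / q < 0 := by linarith
      exact one_div_neg.mp h2
    refine ⟨fun j => (((if j = 0 then 1 else 1 / 2 : ℝ)) : ℂ) • ContinuousLinearMap.id ℂ ℂ,
      fun j => if j = 0 then 1 else 1 / 2, 3 / 2, fun _ _ => 1 / 2, ?_, ?_, ?_, ?_⟩
    · intro j
      exact isSchattenNorm_smul_id hp0 (by split_ifs <;> norm_num)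
    · have h1 := isSchattenNorm_smul_id hp0 (c := 3 / 2) (by norm_num)
      convert h1 using 1
      rw [Fin.sum_univ_two, ← add_smul]
      congr 1
      push_cast
      norm_num
    · intro j k hjk
      have h1 := isSchattenNorm_smul_id hp0 (c := 1 / 2) (by norm_num)
      have hj : j = 0 := by omega
      have hk : k = 1 := by omega
      subst hj; subst hk
      convert h1 using 1
      show (((if (0 : Fin 2) = 0 then 1 else 1 / 2 : ℝ)) : ℂ) • ContinuousLinearMap.id ℂ ℂ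
        - (((if (1 : Fin 2) = 0 then 1 else 1 / 2 : ℝ)) : ℂ) • ContinuousLinearMap.id ℂ ℂ = _
      ext
      simp only [if_true, if_neg (show ¬ (1 : Fin 2) = 0 by decide),
        ContinuousLinearMap.sub_apply, ContinuousLinearMap.smul_apply,
        ContinuousLinearMap.id_apply, smul_eq_mul]
      push_cast
      norm_num
    · have hsum : ∑ j : Fin 2, (if j = 0 then (1:ℝ) else 1 / 2) ^ p = 1 + (1 / 2) ^ p := by
        rw [Fin.sum_univ_two]; simp
      have hIoi : ∑ j : Fin 2, ∑ k ∈ Finset.Ioi j, ((1:ℝ) / 2) ^ q = (1 / 2) ^ q := by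
        rw [Fin.sum_univ_two]
        have e0 : (Finset.Ioi (0 : Fin 2)) = {1} := by decide
        have e1 : (Finset.Ioi (1 : Fin 2)) = ∅ := by decide
        rw [e0, e1]; simp
      rw [hsum, hIoi]
      have h1 : ((3:ℝ) / 2) ^ p ≤ 1 + (1 / 2) ^ p := by
        have := Real.rpow_add_le_add_rpow (p := p) (a := 1) (b := 1 / 2) (by norm_num)
          (by norm_num) hp0.le hp1.le
        rw [Real.one_rpow] at this
        norm_num at this ⊢
        exact this
      have h2 : (1 + ((1:ℝ) / 2) ^ p) ^ (q / p) ≤ (3 / 2) ^ q := by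
        calc (1 + ((1:ℝ) / 2) ^ p) ^ (q / p) ≤ (((3:ℝ) / 2) ^ p) ^ (q / p) :=
              Real.rpow_le_rpow_of_nonpos (by positivity) h1
                (div_nonpos_of_nonpos_of_nonneg hq.le hp0.le)
          _ = (3 / 2) ^ q := by
              rw [← Real.rpow_mul (by norm_num)]
              congr 1; field_simp
      have h3 : ((3:ℝ) / 2) ^ q < (1 / 2) ^ q :=
        Real.rpow_lt_rpow_of_neg (by norm_num) (by norm_num) hq
      push_cast
      linarith

end Pool.Agent.Results.MP_5deb6a_an.SchattenClarkson
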